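import Pool.Agent.N461.LK.Stm

/-! Project LK (helper461), leaf A (helper324): the upper bound of `TH200.LP.upper` with slack;
the proofs of `param` and `upper` are those of TH200/LPi.lean, TH200/LPj.lean. -/

set_option autoImplicit false
set_option linter.unusedSectionVars false
open Finset Filter Topology
open scoped Classical

namespace Pool.Agent.N324.LKA
open Pool.Agent.TH200.LP

section final
variable {V : Type} [Fintype V] [Nonempty V]

lemma param (k : ℕ) (hk : 2 ≤ k) (ε p : ℝ) (hε : 0 < ε) (hε1 : ε ≤ 1 / (k : ℝ))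
    (hε2 : ε ≤ 1 / (4 * C1 k)) (hp : 2 ≤ p) (hb : (1 - ε) ^ p ≤ 1 / 4)
    (hb2 : (1 - ε) ^ p ≤ 1 / (4 * (k : ℝ) ^ 2))
    (hτ : p * (1 - 1 / (k : ℝ)) ^ (p - 1) * (3 + C2 k) +
      p * (p - 1) * (1 - ε) ^ (p - 2) * (16 + 2 * C2 k) ≤ 1 / 4)
    (H : V → V → V → Prop)
    (h12 : ∀ x y z, H x y z → H y x z) (h23 : ∀ x y z, H x y z → H x z y)
    (free : ∀ φ : Fin (2 * k + 1) → V,
      ∃ i j l, i ≠ j ∧ i ≠ l ∧ j ≠ l ∧ ¬ H (φ i) (φ j) (φ l)) :
    ∃ Δ : ℝ, 0 ≤ Δ ∧ (av fun x : V => av fun y : V => cd H x y ^ p) + Δ / 4 ≤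
      (1 - 1 / (k : ℝ)) + 1 / (k : ℝ) * (1 - 1 / (k : ℝ)) ^ p ∧
      (1 / (2 * (k : ℝ) ^ 2) ≤ Δ ∨
        (c0 k ≤ t (Gr H ε) k ∧ Q (Gr H ε) 2 ≤ 2 * Δ ∧ T (Gr H ε) H ≤ C2 k * Δ ∧
          C1 k * Ls (Gr H ε) H ≤ Δ ∧ t (Gr H ε) (k + 1) ≤ k * Δ ∧ va (Gr H ε) ≤ Δ ∧
          1 - 1 / (k : ℝ) - Δ ≤ ed (Gr H ε))) := by
  have hk2 : (2 : ℝ) ≤ k := by exact_mod_cast hk
  have hk0 : (0 : ℝ) < k := by linarith
  have hkinv : 1 / (k : ℝ) ≤ 1 / 2 := by
    apply one_div_le_one_div_of_le <;> linarith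
  have hkpos : 0 < 1 / (k : ℝ) := by positivity
  set a : ℝ := 1 - 1 / (k : ℝ) with ha
  have ha0 : 0 < a := by rw [ha]; linarith
  have hab : a ≤ 1 - ε := by rw [ha]; linarith
  set G := Gr H ε with hGdef
  have hG : ∀ x y, G x y → G y x := Gr_symm H h12 ε
  set e := ed G with he
  have he0 : 0 ≤ e := ed_nonneg G
  have he1 : e ≤ 1 := ed_le_one G
  have hap : a ^ p ≤ (1 - ε) ^ p := Real.rpow_le_rpow ha0.le hab (by linarith)
  have hap0 : 0 ≤ a ^ p := Real.rpow_nonneg ha0.le p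
  by_cases hsmall : 1 - 1 / (k : ℝ) - 1 / (2 * (k : ℝ) ^ 2) ≤ ed G
  · obtain ⟨g1, g2, g3, g4⟩ := graph_main hG k hk hsmall
    have hA := claimA hG h12 h23 free
    obtain ⟨r1, r2, r3, r4⟩ := struct k hk hG h12 h23 free hsmall
    rw [← ha, ← he] at r1 r2 r3 r4
    set L := Ls G H with hL
    have hL0 : 0 ≤ L := Ls_nonneg G H
    have hC1 := C1_pos k hk
    have hC2 := C2_nonneg k hk
    set Δ := max (a - e) 0 + C1 k * L with hΔ
    have hC1L : 0 ≤ C1 k * L := mul_nonneg hC1.le hL0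
    have m1 := le_max_left (a - e) 0
    have m2 := le_max_right (a - e) 0
    have hΔ0 : 0 ≤ Δ := by rw [hΔ]; linarith
    set K := (1 - (1 - ε) ^ p) / ε with hK
    have hKC : 2 * C1 k ≤ K := by
      rw [hK, le_div_iff₀ hε]
      have : 2 * C1 k * ε ≤ 1 / 2 := by
        have h1 : 2 * C1 k * ε ≤ 2 * C1 k * (1 / (4 * C1 k)) :=
          mul_le_mul_of_nonneg_left hε2 (by positivity)
        have h2 : 2 * C1 k * (1 / (4 * C1 k)) = 1 / 2 := by field_simp; norm_num
        linarith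
      linarith
    have hpt := fun x => av_mono (fun y => point G H hε ha0 hab hp (fun _ _ => Iff.rfl) x y)
    have hav := av_mono hpt
    have hrhs : (av fun x : V => av fun y : V =>
        (ind (G x y) - (1 - (1 - ε) ^ p) / ε * (ind (G x y) * (1 - cd H x y))) +
        ((1 - ind (G x y)) * a ^ p +
        (p * a ^ (p - 1) * ((1 - ind (G x y)) * (dg G x - a) + (1 - ind (G x y)) * w G x y +
          (1 - ind (G x y)) * Ib G H x y) +
        p * (p - 1) * (1 - ε) ^ (p - 2) * (4 * (dg G x - a) ^ 2 +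
          4 * ((1 - ind (G x y)) * w G x y) + 2 * ((1 - ind (G x y)) * Ib G H x y))))) =
        (e - K * L) + ((1 - e) * a ^ p + (p * a ^ (p - 1) * (((e - a) * (1 - e) - va G) + Q G 2 +
          T G H) + p * (p - 1) * (1 - ε) ^ (p - 2) * (4 * (va G + (e - a) ^ 2) + 4 * Q G 2 +
          2 * T G H))) := by
      simp only [av_add, av_sub, av_mul_left, av_mul_right, av_const]
      rw [← av_w hG, ← av_s1 a, ← av_Ib (G := G) H, hL, ← av_L (G := G) H, ← va_shift]
      simp only [av_add, av_sub, av_mul_left, av_mul_right, av_const]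
      rfl
    rw [hrhs] at hav
    have hc1 : 0 ≤ p * a ^ (p - 1) := by
      have := Real.rpow_nonneg ha0.le (p - 1)
      have : 0 ≤ p := by linarith
      positivity
    have hκ : 0 ≤ p * (p - 1) * (1 - ε) ^ (p - 2) := by
      have : 0 ≤ p * (p - 1) := by nlinarith
      have := Real.rpow_nonneg (by linarith : (0 : ℝ) ≤ 1 - ε) (p - 2)
      positivity
    have hva := va_nonneg G
    have b1 : ((e - a) * (1 - e) - va G) + Q G 2 + T G H ≤ (3 + C2 k) * Δ := by
      have h1 : (e - a) * (1 - e) ≤ Δ := by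
        rcases le_total e a with h | h
        · have : (e - a) * (1 - e) ≤ 0 := mul_nonpos_of_nonpos_of_nonneg (by linarith) (by linarith)
          linarith
        · have : (e - a) * (1 - e) ≤ (e - a) * 1 :=
            mul_le_mul_of_nonneg_left (by linarith) (by linarith)
          rw [hΔ]; linarith
      linarith
    have b2 : 4 * (va G + (e - a) ^ 2) + 4 * Q G 2 + 2 * T G H ≤ (16 + 2 * C2 k) * Δ := by
      have h1 : (e - a) ^ 2 ≤ Δ := by
        have h3 : |e - a| ≤ Δ := by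
          rw [abs_le]
          constructor <;> rw [hΔ] <;> linarith
        have h4 : |e - a| ≤ 1 := by
          rw [abs_le]
          constructor <;> linarith
        rw [← sq_abs, sq]
        calc |e - a| * |e - a| ≤ Δ * 1 := mul_le_mul h3 h4 (abs_nonneg _) hΔ0
          _ = Δ := mul_one _
      linarith
    have b3 := mul_le_mul_of_nonneg_left b1 hc1
    have b4 := mul_le_mul_of_nonneg_left b2 hκ
    have b5 : p * a ^ (p - 1) * ((3 + C2 k) * Δ) +
        p * (p - 1) * (1 - ε) ^ (p - 2) * ((16 + 2 * C2 k) * Δ) ≤ 1 / 4 * Δ := by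
      have := mul_le_mul_of_nonneg_right hτ hΔ0
      linarith
    have hKL : 2 * (C1 k * L) ≤ K * L := by
      have := mul_le_mul_of_nonneg_right hKC hL0
      linarith
    have hfin : (e - K * L) + (1 - e) * a ^ p + 1 / 2 * Δ ≤ a + 1 / (k : ℝ) * a ^ p := by
      have e1 : 1 / (k : ℝ) = 1 - a := by rw [ha]; ring
      rw [e1]
      rcases le_total e a with h | h
      · have h1 : Δ = (a - e) + C1 k * L := by rw [hΔ, max_eq_left (by linarith)]
        rw [h1]
        have h2 : (a - e) * a ^ p ≤ (a - e) * (1 / 2) :=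
          mul_le_mul_of_nonneg_left (by linarith) (by linarith)
        have h3 : a + (1 - a) * a ^ p - ((e - K * L) + (1 - e) * a ^ p +
            1 / 2 * ((a - e) + C1 k * L)) =
            ((a - e) * (1 / 2) - (a - e) * a ^ p) + (K * L - 1 / 2 * (C1 k * L)) := by ring
        linarith
      · have h1 : Δ = C1 k * L := by rw [hΔ, max_eq_right (by linarith), zero_add]
        rw [h1]
        have h2 : 0 ≤ (e - a) * a ^ p := mul_nonneg (by linarith) hap0
        have h3 : a + (1 - a) * a ^ p - ((e - K * L) + (1 - e) * a ^ p +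
            1 / 2 * (C1 k * L)) =
            (C1 k * L - (e - a)) + (e - a) * a ^ p + (K * L - 3 / 2 * (C1 k * L)) := by ring
        linarith
    have hCΔ : C1 k * L ≤ Δ := by
      rw [hΔ]
      linarith
    have htk1Δ : t G (k + 1) ≤ k * Δ := by
      have hc := c0_pos k hk
      have hc1' := c0_le_one k hk
      have htk1 := t_nonneg G (k + 1)
      have hN : ((2 : ℝ) * k + 1) ^ 3 * L = k * c0 k ^ 2 * (C1 k * L) := by
        unfold C1
        field_simp
      have h1 : c0 k * t G (k + 1) ≤ c0 k * (k * c0 k * (C1 k * L)) := by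
        calc c0 k * t G (k + 1) ≤ t G k * t G (k + 1) := mul_le_mul_of_nonneg_right g1 htk1
          _ ≤ _ := hA
          _ = _ := hN
          _ = _ := by ring
      have h2 := le_of_mul_le_mul_left h1 hc
      calc t G (k + 1) ≤ k * c0 k * (C1 k * L) := h2
        _ ≤ k * 1 * Δ := by gcongr
        _ = k * Δ := by ring
    refine ⟨Δ, hΔ0, ?_, Or.inr ⟨g1, r3, r4, hCΔ, htk1Δ, r2, ?_⟩⟩
    · linarith
    · rw [hΔ]
      linarith
  · push Not at hsmall
    have hpt : ∀ x y, cd H x y ^ p ≤ ind (G x y) + (1 - ε) ^ p := by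
      intro x y
      have hb0 : 0 ≤ (1 - ε) ^ p := Real.rpow_nonneg (by linarith) p
      by_cases h : G x y
      · rw [ind_true h]
        have := Real.rpow_le_one (cd_nonneg H x y) (cd_le_one H x y) (by linarith : 0 ≤ p)
        linarith
      · rw [ind_false h, zero_add]
        have hd : cd H x y ≤ 1 - ε := by
          have : ¬ (1 - ε ≤ cd H x y) := h
          push Not at this
          exact this.le
        exact Real.rpow_le_rpow (cd_nonneg H x y) hd (by linarith)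
    have hav := av_mono fun x => av_mono (hpt x)
    have e1 : (av fun x : V => av fun y : V => (ind (G x y) + (1 - ε) ^ p)) =
        e + (1 - ε) ^ p := by
      simp only [av_add, av_const]
      rfl
    rw [e1] at hav
    have h5 : 0 ≤ 1 / (k : ℝ) * a ^ p := mul_nonneg hkpos.le hap0
    have h6 : 0 < 1 / (8 * (k : ℝ) ^ 2) := by positivity
    have h7 : 1 / (4 * (k : ℝ) ^ 2) = 2 * (1 / (8 * (k : ℝ) ^ 2)) := by
      field_simp
      norm_num
    have h8 : 1 / (2 * (k : ℝ) ^ 2) = 4 * (1 / (8 * (k : ℝ) ^ 2)) := by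
      field_simp
      norm_num
    refine ⟨1 / (2 * (k : ℝ) ^ 2), by positivity, ?_, Or.inl le_rfl⟩
    rw [h8] at hsmall ⊢
    rw [h7] at hb2
    linarith

end final

theorem main (k : ℕ) (hk : 2 ≤ k) : Pool.Agent.N461.LK.S_A k := by
  have hk2 : (2 : ℝ) ≤ k := by exact_mod_cast hk
  have hk0 : (0 : ℝ) < k := by linarith
  have hkinv : 1 / (k : ℝ) ≤ 1 / 2 := by
    apply one_div_le_one_div_of_le <;> linarith
  have hkpos : 0 < 1 / (k : ℝ) := by positivity
  have hC1 := C1_pos k hk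
  have hC2 := C2_nonneg k hk
  set ε : ℝ := min (1 / (k : ℝ)) (1 / (4 * C1 k)) with hε
  have hε0 : 0 < ε := lt_min hkpos (by positivity)
  have hε1 : ε ≤ 1 / (k : ℝ) := min_le_left _ _
  have hε2 : ε ≤ 1 / (4 * C1 k) := min_le_right _ _
  set a : ℝ := 1 - 1 / (k : ℝ) with ha
  set b : ℝ := 1 - ε with hb
  have ha0 : 0 < a := by rw [ha]; linarith
  have ha1 : a < 1 := by rw [ha]; linarith
  have hb0 : 0 < b := by rw [hb]; linarith
  have hb1 : b < 1 := by rw [hb]; linarith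
  have l1 : Tendsto (fun p : ℝ => b ^ p) atTop (𝓝 0) :=
    tendsto_rpow_atTop_of_base_lt_one b (by linarith) hb1
  have l2 : Tendsto (fun p : ℝ => (p ^ 2 * a ^ p) * ((3 + C2 k) / a) +
      (p ^ 2 * b ^ p) * ((16 + 2 * C2 k) / b ^ 2)) atTop (𝓝 0) := by
    have := ((lim2 ha0 ha1).mul_const ((3 + C2 k) / a)).add
      ((lim2 hb0 hb1).mul_const ((16 + 2 * C2 k) / b ^ 2))
    simpa using this
  have ev : ∀ᶠ p : ℝ in atTop, 2 ≤ p ∧ b ^ p ≤ 1 / 4 ∧ b ^ p ≤ 1 / (4 * (k : ℝ) ^ 2) ∧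
      (p ^ 2 * a ^ p) * ((3 + C2 k) / a) +
      (p ^ 2 * b ^ p) * ((16 + 2 * C2 k) / b ^ 2) ≤ 1 / 4 := by
    filter_upwards [eventually_ge_atTop (2 : ℝ), l1.eventually_le_const (by norm_num : (0 : ℝ) < 1 / 4),
      l1.eventually_le_const (by positivity : (0 : ℝ) < 1 / (4 * (k : ℝ) ^ 2)),
      l2.eventually_le_const (by norm_num : (0 : ℝ) < 1 / 4)] with p h1 h2 h3 h4
    exact ⟨h1, h2, h3, h4⟩
  obtain ⟨p₀, hp₀⟩ := eventually_atTop.1 ev
  refine ⟨ε, max p₀ 2, hε0, hε1, le_max_right _ _, fun p hp V _ _ H h12 h23 free => ?_⟩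
  obtain ⟨h1, h2, h3, h4⟩ := hp₀ p (le_trans (le_max_left _ _) hp)
  refine param k hk ε p hε0 hε1 hε2 h1 h2 h3 ?_ H h12 h23 free
  rw [← ha, ← hb]
  refine le_trans ?_ h4
  have e1 : a ^ (p - 1) = a ^ p / a := Real.rpow_sub_one ha0.ne' p
  have e2 : b ^ (p - 2) = b ^ p / b ^ 2 := by
    rw [Real.rpow_sub hb0]
    norm_num
  have hap : 0 ≤ a ^ p := Real.rpow_nonneg ha0.le p
  have hbp : 0 ≤ b ^ p := Real.rpow_nonneg hb0.le p
  have i1 : p * a ^ (p - 1) * (3 + C2 k) ≤ (p ^ 2 * a ^ p) * ((3 + C2 k) / a) := by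
    rw [e1]
    have : p ≤ p ^ 2 := by nlinarith
    calc p * (a ^ p / a) * (3 + C2 k) = (p * a ^ p) * ((3 + C2 k) / a) := by ring
      _ ≤ (p ^ 2 * a ^ p) * ((3 + C2 k) / a) := by gcongr
  have i2 : p * (p - 1) * b ^ (p - 2) * (16 + 2 * C2 k) ≤
      (p ^ 2 * b ^ p) * ((16 + 2 * C2 k) / b ^ 2) := by
    rw [e2]
    have : p * (p - 1) ≤ p ^ 2 := by nlinarith
    calc p * (p - 1) * (b ^ p / b ^ 2) * (16 + 2 * C2 k) =
          (p * (p - 1) * b ^ p) * ((16 + 2 * C2 k) / b ^ 2) := by ring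
      _ ≤ (p ^ 2 * b ^ p) * ((16 + 2 * C2 k) / b ^ 2) := by gcongr
  linarith

end Pool.Agent.N324.LKA
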